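import Pool.Agent.H586.AF.C

/-!
# Project AF, task FN: final assembly (helper682)
-/

set_option autoImplicit false

open MeasureTheory Matrix Finset Filter Topology
open scoped Quaternion

namespace Pool.Agent.H682.AF

open Pool.Agent.H586.AF

theorem comp_le (x : ℍ[ℝ]) : |x.imI| ≤ ‖x‖ ∧ |x.imJ| ≤ ‖x‖ ∧ |x.imK| ≤ ‖x‖ := by
  have h1 : x.re ^ 2 + x.imI ^ 2 + x.imJ ^ 2 + x.imK ^ 2 = ‖x‖ ^ 2 := by
    rw [← Quaternion.normSq_def', Quaternion.normSq_eq_norm_mul_self, sq]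
  have h0 : 0 ≤ ‖x‖ := norm_nonneg x
  refine ⟨?_, ?_, ?_⟩ <;>
  · apply abs_le_of_sq_le_sq _ h0
    nlinarith [sq_nonneg x.re, sq_nonneg x.imI, sq_nonneg x.imJ, sq_nonneg x.imK]

theorem abs_ph_le (a : Fin 3) (q : ℍ[ℝ]) : |ph a q| ≤ 2 * ‖q - 1‖ := by
  have h2 : Real.sqrt 2 ≤ 2 := Real.sqrt_le_iff.2 ⟨by norm_num, by norm_num⟩
  have h0 : 0 ≤ Real.sqrt 2 := Real.sqrt_nonneg 2
  obtain ⟨h3, h4, h5⟩ := comp_le (q - 1)
  have e1 : (q - 1).imI = q.imI := by simp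
  have e2 : (q - 1).imJ = q.imJ := by simp
  have e3 : (q - 1).imK = q.imK := by simp
  rw [e1] at h3
  rw [e2] at h4
  rw [e3] at h5
  unfold ph
  rw [abs_mul, abs_of_nonneg h0]
  apply mul_le_mul h2 _ (abs_nonneg _) (by norm_num)
  split_ifs
  · exact h3
  · exact h4
  · exact h5

theorem cont_ph (a : Fin 3) : Continuous (ph a) := by
  unfold ph
  refine continuous_const.mul ?_
  split_ifs
  · exact Quaternion.continuous_imI
  · exact Quaternion.continuous_imJ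
  · exact Quaternion.continuous_imK

theorem cx_mul {a b c : Type} [Fintype b] (A : Matrix a b ℝ) (B : Matrix b c ℝ) :
    cx (A * B) = cx A * cx B := by
  ext i j
  simp [Matrix.mul_apply]

theorem trace_cx {a : Type} [Fintype a] (A : Matrix a a ℝ) : (cx A).trace = ((A.trace : ℝ) : ℂ) := by
  simp [Matrix.trace]

theorem cx_inv {a : Type} [Fintype a] [DecidableEq a] (A : Matrix a a ℝ) (hA : IsUnit A.det) :
    (cx A)⁻¹ = cx A⁻¹ := by
  apply Matrix.inv_eq_right_inv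
  rw [← cx_mul, Matrix.mul_nonsing_inv A hA]
  ext i j
  by_cases h : i = j
  · subst h
    simp
  · simp [Matrix.one_apply_ne h]

theorem ld_hC (hHR : S_HR) (hAI : S_AI) (L : ℕ) (hL : 2 ≤ L) :
    ld (hC L) = ((((mA L)⁻¹ * mC L).trace + ((mA L)⁻¹ * mB L * (mA L)⁻¹ * mB L).trace : ℝ) : ℂ) := by
  obtain ⟨CH, hHR⟩ := hHR
  obtain ⟨h0, -, -, -, h1, h2, -⟩ := hHR L hL
  obtain ⟨hpd, -⟩ := hAI L hL
  have hu : IsUnit (mA L).det := isUnit_iff_ne_zero.2 hpd.det_pos.ne'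
  have e1 : (Matrix.of fun i j => deriv (deriv fun θ => hC L θ i j) 0) = cx (mC L) := by
    ext i j
    simp [h2]
  have e2 : (Matrix.of fun i j => deriv (fun θ => hC L θ i j) 0) = Complex.I • cx (mB L) := by
    ext i j
    simp [h1]
  unfold ld
  rw [e1, e2, h0, cx_inv _ hu]
  have e3 : cx (mA L)⁻¹ * (Complex.I • cx (mB L)) * cx (mA L)⁻¹ * (Complex.I • cx (mB L)) =
      -(cx ((mA L)⁻¹ * mB L * (mA L)⁻¹ * mB L)) := by
    simp only [Matrix.mul_smul, Matrix.smul_mul, smul_smul, Complex.I_mul_I, neg_one_smul, cx_mul]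
  rw [e3, ← cx_mul, Matrix.trace_neg, trace_cx, trace_cx]
  push_cast
  ring

theorem cont_slice {A B C : Type} [TopologicalSpace A] [TopologicalSpace B] [TopologicalSpace C]
    (f : A → B → C) (h : Continuous (Function.uncurry f)) (a : A) : Continuous (f a) :=
  h.comp (Continuous.prodMk_right a)

theorem beta_pow {β : ℝ} (hβ : 1 ≤ β) :
    β ^ (-(9 / 20) : ℝ) + β * (β ^ (-(9 / 20) : ℝ)) ^ 3 + β ^ 2 * (β ^ (-(9 / 20) : ℝ)) ^ 5 +
      (1 + β + β ^ 2) * β ^ (-9 : ℝ) ≤ 6 * β ^ (-(1 / 4) : ℝ) := by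
  have hβ0 : 0 < β := by linarith
  have a1 : β ^ (-(9 / 20) : ℝ) ≤ β ^ (-(1 / 4) : ℝ) :=
    Real.rpow_le_rpow_of_exponent_le hβ (by norm_num)
  have a2 : β * (β ^ (-(9 / 20) : ℝ)) ^ 3 ≤ β ^ (-(1 / 4) : ℝ) := by
    have e : β * (β ^ (-(9 / 20) : ℝ)) ^ 3 = β ^ (-(7 / 20) : ℝ) := by
      rw [← Real.rpow_natCast (β ^ (-(9 / 20) : ℝ)) 3, ← Real.rpow_mul hβ0.le]
      nth_rewrite 1 [← Real.rpow_one β]
      rw [← Real.rpow_add hβ0]
      norm_num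
    rw [e]
    exact Real.rpow_le_rpow_of_exponent_le hβ (by norm_num)
  have a3 : β ^ 2 * (β ^ (-(9 / 20) : ℝ)) ^ 5 ≤ β ^ (-(1 / 4) : ℝ) := by
    have e : β ^ 2 * (β ^ (-(9 / 20) : ℝ)) ^ 5 = β ^ (-(1 / 4) : ℝ) := by
      rw [← Real.rpow_natCast (β ^ (-(9 / 20) : ℝ)) 5, ← Real.rpow_mul hβ0.le,
        ← Real.rpow_natCast β 2, ← Real.rpow_add hβ0]
      norm_num
    rw [e]
  have a4 : (1 + β + β ^ 2) * β ^ (-9 : ℝ) ≤ 3 * β ^ (-(1 / 4) : ℝ) := by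
    have h1 : 1 + β + β ^ 2 ≤ 3 * β ^ 2 := by nlinarith
    have h2 : 0 < β ^ (-9 : ℝ) := Real.rpow_pos_of_pos hβ0 _
    have e : β ^ 2 * β ^ (-9 : ℝ) = β ^ (-7 : ℝ) := by
      rw [← Real.rpow_natCast β 2, ← Real.rpow_add hβ0]
      norm_num
    calc (1 + β + β ^ 2) * β ^ (-9 : ℝ) ≤ 3 * β ^ 2 * β ^ (-9 : ℝ) :=
          mul_le_mul_of_nonneg_right h1 h2.le
      _ = 3 * β ^ (-7 : ℝ) := by rw [mul_assoc, e]
      _ ≤ 3 * β ^ (-(1 / 4) : ℝ) := by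
          apply mul_le_mul_of_nonneg_left _ (by norm_num)
          exact Real.rpow_le_rpow_of_exponent_le hβ (by norm_num)
  linarith

theorem beta_large {β x : ℝ} (N : ℕ) (hx : 1 ≤ x) (h : x ^ (4 * N) ≤ β) :
    x ^ N * β ^ (-(1 / 4) : ℝ) ≤ 1 := by
  have hx0 : 0 < x := by linarith
  have h1 : β ^ (-(1 / 4) : ℝ) ≤ (x ^ (4 * N)) ^ (-(1 / 4) : ℝ) :=
    Real.rpow_le_rpow_of_nonpos (by positivity) h (by norm_num)
  have h2 : (x ^ (4 * N)) ^ (-(1 / 4) : ℝ) = (x ^ N)⁻¹ := by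
    rw [← Real.rpow_natCast x (4 * N), ← Real.rpow_mul hx0.le, ← Real.rpow_natCast x N,
      ← Real.rpow_neg hx0.le]
    congr 1
    push_cast
    ring
  rw [h2] at h1
  have h3 : 0 < x ^ N := by positivity
  calc x ^ N * β ^ (-(1 / 4) : ℝ) ≤ x ^ N * (x ^ N)⁻¹ := mul_le_mul_of_nonneg_left h1 h3.le
    _ = 1 := mul_inv_cancel₀ h3.ne'

theorem tfn (hGF : S_GF) (hZD : S_ZD) (hLP : S_LP) (hM3 : S_M3) (hE3 : S_E3) (hPB : S_PB)
    (hEB : S_EB) (hHR : S_HR) (hAI : S_AI) (hL1 : S_L1) (hL2 : S_L2) : S_FN := by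
  have hld := fun L hL => ld_hC hHR hAI L hL
  obtain ⟨CM, kM, KM, hCM, hM3⟩ := hM3
  obtain ⟨CE, hE3⟩ := hE3
  obtain ⟨CH, hHR⟩ := hHR
  obtain ⟨CL, hL2⟩ := hL2
  obtain ⟨c, hc⟩ : ∃ c : ℝ, c = |CE| + |CH| + 50 := ⟨_, rfl⟩
  have hCE := abs_nonneg CE
  have hCH := abs_nonneg CH
  have hc50 : 50 ≤ c := by linarith
  obtain ⟨n, hn⟩ : ∃ n : ℕ, 1000 * c ^ 20 * (CM + 6) < 2 ^ n :=
    pow_unbounded_of_one_lt _ one_lt_two
  refine ⟨4 * (120 + kM + n) + KM, |CL| + 2, fun μ _ _ L hL β hβ => ?_⟩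
  have hL2r : (2 : ℝ) ≤ L := by exact_mod_cast hL
  have hL1r : (1 : ℝ) ≤ L := by linarith
  have hL0r : (0 : ℝ) < L := by linarith
  have hβ1 : (L : ℝ) ^ (4 * (120 + kM + n)) ≤ β :=
    (pow_le_pow_right₀ hL1r (by omega)).trans hβ
  have hβ2 : (L : ℝ) ^ KM ≤ β := (pow_le_pow_right₀ hL1r (by omega)).trans hβ
  have hβ3 : 1 ≤ β := (one_le_pow₀ hL1r).trans hβ
  have hβ0 : 0 < β := by linarith
  obtain ⟨hm2, hm4, htail⟩ := hM3 μ L hL β hβ2
  obtain ⟨e1, e2, hme1, hme2, hder, hexp⟩ := hE3 L hL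
  obtain ⟨hE1, hEcont, hEcard⟩ := hEB L hL
  obtain ⟨hP, hZpos, hPint⟩ := hPB μ L hL β
  obtain ⟨hpd, hinv, htr0, htr3, hR10, -⟩ := hAI L hL
  obtain ⟨-, hAs, hBs, hCs, -, -, hbd⟩ := hHR L hL
  have hldL := hld L hL
  rw [(hL1 L hL).1] at hldL
  have hLL : LL L = ((mA L)⁻¹ * mC L).trace + ((mA L)⁻¹ * mB L * (mA L)⁻¹ * mB L).trace := by
    exact_mod_cast hldL
  have hL2L := hL2 L hL
  have := hP
  obtain ⟨b4, hb4⟩ : ∃ b4 : ℝ, b4 = β ^ (-(1 / 4) : ℝ) := ⟨_, rfl⟩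
  have hb40 : 0 < b4 := by rw [hb4]; exact Real.rpow_pos_of_pos hβ0 _
  have hLb : (L : ℝ) ^ (120 + kM + n) * b4 ≤ 1 := by
    rw [hb4]
    exact beta_large _ hL1r hβ1
  have hsum := beta_pow hβ3
  rw [← hb4] at hsum
  rw [← hb4] at hm2 hm4
  obtain ⟨K, hK⟩ : ∃ K : ℝ, K = c * (L : ℝ) ^ 6 := ⟨_, rfl⟩
  obtain ⟨ε, hε⟩ : ∃ ε : ℝ, ε = (CM + 6) * (L : ℝ) ^ kM * b4 := ⟨_, rfl⟩
  have hL6 : (1 : ℝ) ≤ (L : ℝ) ^ 6 := one_le_pow₀ hL1r
  have hLk : (1 : ℝ) ≤ (L : ℝ) ^ kM := one_le_pow₀ hL1r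
  have hcK : c ≤ K := by rw [hK]; nlinarith
  have hK1 : 1 ≤ K := by linarith
  have hL46 : (L : ℝ) ^ 4 ≤ (L : ℝ) ^ 6 := pow_le_pow_right₀ hL1r (by norm_num)
  have hL26 : (L : ℝ) ^ 2 ≤ (L : ℝ) ^ 6 := pow_le_pow_right₀ hL1r (by norm_num)
  have hL16 : (L : ℝ) ≤ (L : ℝ) ^ 6 := by
    calc (L : ℝ) = (L : ℝ) ^ 1 := (pow_one _).symm
      _ ≤ (L : ℝ) ^ 6 := pow_le_pow_right₀ hL1r (by norm_num)
  have hε0 : 0 ≤ ε := by rw [hε]; positivity
  have h2n : (2 : ℝ) ^ n ≤ (L : ℝ) ^ n := pow_le_pow_left₀ (by norm_num) hL2r n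
  have hc20 : (1 : ℝ) ≤ 1000 * c ^ 20 := by
    have : (1 : ℝ) ≤ c ^ 20 := one_le_pow₀ (by linarith)
    linarith
  have hKε : 1000 * K ^ 20 * ε ≤ 1 := by
    have h1 : 1000 * K ^ 20 * ε = (1000 * c ^ 20 * (CM + 6)) * ((L : ℝ) ^ (120 + kM) * b4) := by
      rw [hK, hε]
      ring
    rw [h1]
    calc (1000 * c ^ 20 * (CM + 6)) * ((L : ℝ) ^ (120 + kM) * b4)
        ≤ (L : ℝ) ^ n * ((L : ℝ) ^ (120 + kM) * b4) :=
          mul_le_mul_of_nonneg_right (hn.le.trans h2n) (by positivity)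
      _ = (L : ℝ) ^ (120 + kM + n) * b4 := by ring
      _ ≤ 1 := hLb
  have hε1 : ε ≤ 1 := by
    have h1 : ε ≤ 1000 * K ^ 20 * ε := by
      have : (1 : ℝ) ≤ 1000 * K ^ 20 := by
        have : (1 : ℝ) ≤ K ^ 20 := one_le_pow₀ hK1
        linarith
      exact le_mul_of_one_le_left hε0 this
    linarith
  have hb4ε : 6 * b4 ≤ ε := by
    rw [hε]
    have h1 : 6 * b4 ≤ (CM + 6) * b4 := mul_le_mul_of_nonneg_right (by linarith) hb40.le
    have h2 : (CM + 6) * b4 ≤ (CM + 6) * (L : ℝ) ^ kM * b4 := by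
      apply mul_le_mul_of_nonneg_right _ hb40.le
      exact le_mul_of_one_le_right (by linarith) hLk
    linarith
  have hMε : CM * (L : ℝ) ^ kM * b4 ≤ ε := by
    rw [hε]
    apply mul_le_mul_of_nonneg_right _ hb40.le
    apply mul_le_mul_of_nonneg_right _ (by positivity)
    linarith
  have hsz0 : ∀ σ : IH L → SU, 0 ≤ sz σ := fun σ => Finset.sum_nonneg fun _ _ => norm_nonneg _
  have hCEK : CE * (L : ℝ) ^ 6 ≤ K := by
    rw [hK]
    apply mul_le_mul_of_nonneg_right _ (by positivity)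
    linarith [le_abs_self CE]
  have hmain := hLP (gb μ L β) (fun x σ => ph x.2 (σ x.1 : SU)) (fun σ => 2 * sz σ) (e1 0) (e2 0)
    (mC L) (mB L) ((mA L)⁻¹) (mR L) ((1 / 2) * (L : ℝ) ^ 3 * (L - 1)) β K (β ^ (-(9 / 20) : ℝ))
    (β ^ (-9 : ℝ)) ε hK1 hβ3 (Real.rpow_nonneg hβ0.le _) (Real.rpow_nonneg hβ0.le _) hε0 hε1
    ?_ (hme1 0) (hme2 0) ?_ ?_ ?_ ?_ ?_ hBs ?_ htail (by linarith) ?_ ?_ ?_ ?_
  · -- the conclusion
    have hz := hZD (Measure.pi fun _ : IH L => μ) (fun θ σ => en L θ σ) e1 e2 (CE * (L : ℝ) ^ 6) β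
      ?_ hme1 hme2 (fun θ σ => (hder θ σ).1) (fun θ σ => (hder θ σ).2.1)
      (fun θ σ => ⟨(hder θ σ).2.2.2.2, (hder θ σ).2.2.1, (hder θ σ).2.2.2.1⟩)
    · have hfun : (fun θ => -Real.log (ZZ μ L β θ)) =
          fun θ => -Real.log (∫ σ : IH L → SU, Real.exp (-(β * en L θ σ))
            ∂(Measure.pi fun _ : IH L => μ)) := by
        funext θ
        rw [hGF μ L hL β θ]
      rw [hfun, hz, ← hPint (e2 0), ← hPint (fun σ => e1 0 σ ^ 2), ← hPint (e1 0)]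
      have hD : |β * ∫ σ, e2 0 σ ∂(gb μ L β) - β ^ 2 * (∫ σ, e1 0 σ ^ 2 ∂(gb μ L β) -
          (∫ σ, e1 0 σ ∂(gb μ L β)) ^ 2) - (β * ((1 / 2) * (L : ℝ) ^ 3 * (L - 1)) + LL L -
          (1 / 8) * ((mA L)⁻¹ * mR L).trace)| ≤ 1 := by
        refine le_trans (le_of_eq ?_) (hmain.trans hKε)
        rw [hLL]
        congr 1
        ring
      have hL4 : (1 : ℝ) ≤ (L : ℝ) ^ 4 := one_le_pow₀ hL1r
      have hCLabs := le_abs_self CL
      have hCL4 : CL * (L : ℝ) ^ 4 ≤ |CL| * (L : ℝ) ^ 4 :=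
        mul_le_mul_of_nonneg_right hCLabs (by positivity)
      rw [abs_le] at hD hL2L ⊢
      obtain ⟨hD1, hD2⟩ := hD
      obtain ⟨hL21, hL22⟩ := hL2L
      constructor <;> linarith
    · intro θ
      exact (cont_slice (en L) hEcont θ).measurable
  · intro i
    have : Continuous fun σ : IH L → SU => ph i.2 (σ i.1 : SU) :=
      (cont_ph i.2).comp (continuous_subtype_val.comp (continuous_apply i.1))
    exact this.measurable
  · have : Continuous fun σ : IH L → SU => 2 * sz σ := by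
      unfold sz
      refine continuous_const.mul (continuous_finsetSum _ fun l _ => ?_)
      exact ((continuous_subtype_val.comp (continuous_apply l)).sub continuous_const).norm
    exact this.measurable
  · intro i σ
    refine (abs_ph_le _ _).trans ?_
    apply mul_le_mul_of_nonneg_left _ (by norm_num)
    exact Finset.single_le_sum (f := fun l => ‖(σ l : ℍ[ℝ]) - 1‖) (fun _ _ => norm_nonneg _)
      (Finset.mem_univ i.1)
  · intro σ
    have h1 := (hE1 σ).2.2.2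
    show 2 * sz σ ≤ K
    have h2 : 50 * (L : ℝ) ^ 6 ≤ K := by
      rw [hK]
      exact mul_le_mul_of_nonneg_right hc50 (by positivity)
    linarith
  · have h2 : 50 * (L : ℝ) ^ 6 ≤ K := by
      rw [hK]
      exact mul_le_mul_of_nonneg_right hc50 (by positivity)
    linarith
  · show ((mA L)⁻¹)ᵀ = (mA L)⁻¹
    rw [Matrix.transpose_nonsing_inv, hAs]
  · intro i j
    have h2 : 50 * (L : ℝ) ^ 6 ≤ K := by
      rw [hK]
      exact mul_le_mul_of_nonneg_right hc50 (by positivity)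
    have h3 : |CH| * (L : ℝ) ^ 6 ≤ K := by
      rw [hK]
      apply mul_le_mul_of_nonneg_right _ (by positivity)
      linarith
    obtain ⟨hb1, hb2, hb3⟩ := hbd i j
    refine ⟨?_, ?_, ?_, ?_⟩
    · refine hb3.trans (le_trans ?_ h3)
      exact mul_le_mul (le_abs_self CH) hL26 (by positivity) (abs_nonneg _)
    · refine hb2.trans (le_trans ?_ h3)
      exact mul_le_mul (le_abs_self CH) hL16 (by positivity) (abs_nonneg _)
    · refine (hinv i j).trans ?_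
      linarith
    · refine (hR10 i j).trans ?_
      linarith
  · intro x y
    exact (hm2 x y).trans hMε
  · intro x y z w
    exact (hm4 x y z w).trans hMε
  · intro σ
    refine (hexp σ).1.trans ?_
    have h1 : 0 ≤ sz σ ^ 3 := pow_nonneg (hsz0 σ) 3
    calc CE * (L : ℝ) ^ 6 * sz σ ^ 3 ≤ K * sz σ ^ 3 := mul_le_mul_of_nonneg_right hCEK h1
      _ ≤ K * (2 * sz σ) ^ 3 := by
          apply mul_le_mul_of_nonneg_left _ (by linarith)
          rw [mul_pow]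
          linarith
  · intro σ
    refine (hexp σ).2.trans ?_
    have h1 : 0 ≤ sz σ ^ 3 := pow_nonneg (hsz0 σ) 3
    calc CE * (L : ℝ) ^ 6 * sz σ ^ 3 ≤ K * sz σ ^ 3 := mul_le_mul_of_nonneg_right hCEK h1
      _ ≤ K * (2 * sz σ) ^ 3 := by
          apply mul_le_mul_of_nonneg_left _ (by linarith)
          rw [mul_pow]
          linarith

end Pool.Agent.H682.AF
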